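import Mathlib

namespace Pool.Agent.MP_e24c0b_lc

/-- The function symbols `+`, `*` (binary) and `0`, `1` (constants). -/
inductive RingSym : ℕ → Type
  | add : RingSym 2
  | mul : RingSym 2
  | zero : RingSym 0
  | one : RingSym 0

/-- The first-order language of rings `{+, *, 0, 1}`, with no relation symbols. -/
def ringLang : FirstOrder.Language := ⟨RingSym, fun _ => Empty⟩

/-- A ring as a structure for the language `{+, *, 0, 1}`, with the usual interpretation. -/
noncomputable instance ringStr (K : Type) [Ring K] : ringLang.Structure K where
  funMap f := RingSym.rec (motive := fun n _ => (Fin n → K) → K)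
    (fun v => v 0 + v 1) (fun v => v 0 * v 1) (fun _ => 0) (fun _ => 1) f
  RelMap r _ := r.elim

end Pool.Agent.MP_e24c0b_lc
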