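import Mathlib

open Polynomial

namespace Pool.Agent.MP_e24c0b_lc

/-- `y` is represented by the binary form `u ^ 2 - a * v ^ 2`. -/
def Nrm {K : Type*} [Field K] (a y : K) : Prop := ∃ u v : K, y = u ^ 2 - a * v ^ 2

section basic
variable {K : Type*} [Field K]

lemma Nrm.mul {a x y : K} (hx : Nrm a x) (hy : Nrm a y) : Nrm a (x * y) := by
  obtain ⟨u, v, rfl⟩ := hx
  obtain ⟨u', v', rfl⟩ := hy
  exact ⟨u * u' + a * v * v', u * v' + u' * v, by ring⟩

lemma nrm_sq (a w : K) : Nrm a (w ^ 2) := ⟨w, 0, by ring⟩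

lemma Nrm.of_mul_sq {a y w : K} (hw : w ≠ 0) (h : Nrm a (y * w ^ 2)) : Nrm a y := by
  obtain ⟨u, v, h⟩ := h
  refine ⟨u / w, v / w, ?_⟩
  field_simp
  exact h

lemma nrm_mul_sq_iff {a y w : K} (hw : w ≠ 0) : Nrm a (y * w ^ 2) ↔ Nrm a y :=
  ⟨Nrm.of_mul_sq hw, fun h => h.mul (nrm_sq a w)⟩

lemma Nrm.of_mul {a f h : K} (hh : h ≠ 0) (h1 : Nrm a (f * h)) (h2 : Nrm a h) : Nrm a f := by
  apply Nrm.of_mul_sq hh
  have := h1.mul h2
  rwa [mul_assoc, ← sq] at this

lemma Nrm.map {L : Type*} [Field L] (e : K →+* L) {a y : K} (h : Nrm a y) :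
    Nrm (e a) (e y) := by
  obtain ⟨u, v, rfl⟩ := h
  exact ⟨e u, e v, by simp⟩

lemma nrm_map_equiv {L : Type*} [Field L] (e : K ≃+* L) {a y : K} :
    Nrm (e a) (e y) ↔ Nrm a y := by
  refine ⟨fun h => ?_, fun h => h.map (e : K →+* L)⟩
  simpa using h.map (e.symm : L →+* K)

lemma nrm_zero_iff {y : K} : Nrm 0 y ↔ IsSquare y := by
  constructor
  · rintro ⟨u, v, h⟩
    exact ⟨u, by rw [h]; ring⟩
  · rintro ⟨u, h⟩
    exact ⟨u, 0, by rw [h]; ring⟩

end basic

section ratfunc
variable {F : Type*} [Field F]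

lemma clear_den {a P : F[X]}
    (h : Nrm (algebraMap F[X] (RatFunc F) a) (algebraMap F[X] (RatFunc F) P)) :
    ∃ u v w : F[X], w ≠ 0 ∧ w ^ 2 * P = u ^ 2 - a * v ^ 2 := by
  obtain ⟨x, y, h⟩ := h
  obtain ⟨u1, w1, hw1, rfl⟩ := IsFractionRing.div_surjective (A := F[X]) x
  obtain ⟨v1, w2, hw2, rfl⟩ := IsFractionRing.div_surjective (A := F[X]) y
  have hw1' : w1 ≠ 0 := nonZeroDivisors.ne_zero hw1
  have hw2' : w2 ≠ 0 := nonZeroDivisors.ne_zero hw2
  have e1 : algebraMap F[X] (RatFunc F) w1 ≠ 0 := by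
    simpa using hw1'
  have e2 : algebraMap F[X] (RatFunc F) w2 ≠ 0 := by
    simpa using hw2'
  refine ⟨u1 * w2, v1 * w1, w1 * w2, mul_ne_zero hw1' hw2', ?_⟩
  apply IsFractionRing.injective F[X] (RatFunc F)
  simp only [map_mul, map_pow, map_sub]
  rw [h]
  field_simp

lemma nrm_descend [Infinite F] {a l : F}
    (h : Nrm (RatFunc.C a : RatFunc F) (RatFunc.C l)) : Nrm a l := by
  rw [← RatFunc.algebraMap_C, ← RatFunc.algebraMap_C] at h
  obtain ⟨u, v, w, hw, h⟩ := clear_den h
  obtain ⟨x, hx⟩ : ∃ x : F, w.eval x ≠ 0 := by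
    by_contra hc
    push Not at hc
    exact hw (Polynomial.funext (by simpa using hc))
  apply Nrm.of_mul_sq hx
  refine ⟨u.eval x, v.eval x, ?_⟩
  have := congrArg (Polynomial.eval x) h
  simp only [eval_mul, eval_pow, eval_C, eval_sub] at this
  rw [← this]; ring

/-- residue lemma -/
lemma residue_aux {p B a : F[X]} (hp : Irreducible p) (hB : ¬ p ∣ B) :
    ∀ n : ℕ, ∀ u v w : F[X], w.natDegree = n → w ≠ 0 →
      w ^ 2 * (p * B) = u ^ 2 - a * v ^ 2 → ∃ r : F[X], p ∣ r ^ 2 - a := by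
  intro n
  induction n using Nat.strong_induction_on with
  | _ n ih =>
    intro u v w hn hw h
    have hpp : Prime p := hp.prime
    by_cases hv : p ∣ v
    · obtain ⟨v', rfl⟩ := hv
      have hu2 : p ∣ u ^ 2 := ⟨w ^ 2 * B + a * p * v' ^ 2, by linear_combination -h⟩
      obtain ⟨u', rfl⟩ := hpp.dvd_of_dvd_pow hu2
      have h2 : w ^ 2 * B = p * (u' ^ 2 - a * v' ^ 2) := by
        apply mul_left_cancel₀ hp.ne_zero
        linear_combination h
      have hw2 : p ∣ w := by
        rcases hpp.dvd_or_dvd ⟨_, h2⟩ with h3 | h3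
        · exact hpp.dvd_of_dvd_pow h3
        · exact absurd h3 hB
      obtain ⟨w', rfl⟩ := hw2
      have hw' : w' ≠ 0 := right_ne_zero_of_mul hw
      have hdeg : w'.natDegree < n := by
        rw [← hn, natDegree_mul hp.ne_zero hw']
        have := hp.natDegree_pos
        omega
      refine ih _ hdeg u' v' w' rfl hw' ?_
      apply mul_left_cancel₀ hp.ne_zero
      linear_combination h2
    · have hc : IsCoprime p v := hp.coprime_iff_not_dvd.2 hv
      obtain ⟨s, r, hsr⟩ := hc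
      refine ⟨u * r, ⟨w ^ 2 * B * r ^ 2 + a * (p * s ^ 2 - 2 * s), ?_⟩⟩
      have h3 : r * v = 1 - s * p := by linear_combination hsr
      have h4 : u ^ 2 = w ^ 2 * (p * B) + a * v ^ 2 := by linear_combination -h
      calc (u * r) ^ 2 - a = u ^ 2 * r ^ 2 - a := by ring
        _ = w ^ 2 * (p * B) * r ^ 2 + a * (r * v) ^ 2 - a := by rw [h4]; ring
        _ = _ := by rw [h3]; ring

lemma residue {p B a : F[X]} (hp : Irreducible p) (hB : ¬ p ∣ B)
    (h : Nrm (algebraMap F[X] (RatFunc F) a) (algebraMap F[X] (RatFunc F) (p * B))) :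
    ∃ r : F[X], p ∣ r ^ 2 - a := by
  obtain ⟨u, v, w, hw, h⟩ := clear_den h
  exact residue_aux hp hB _ u v w rfl hw h

/-- a monic divisor of `r ^ 2 - d` is a norm -/
lemma nrm_of_monic_dvd {d : F} (hd : ¬ IsSquare d) :
    ∀ n : ℕ, ∀ f r : F[X], f.natDegree = n → f.Monic → f ∣ r ^ 2 - C d →
      Nrm (RatFunc.C d : RatFunc F) (algebraMap F[X] (RatFunc F) f) := by
  intro n
  induction n using Nat.strong_induction_on with
  | _ n ih =>
    intro f r hn hf hr
    by_cases hf1 : f = 1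
    · subst hf1
      exact ⟨1, 0, by simp⟩
    set q := r %ₘ f with hq
    have hq1 : f ∣ q ^ 2 - C d := by
      have h1 : r = q + f * (r /ₘ f) := (modByMonic_add_div r f).symm
      have h2 : q ^ 2 - C d = (r ^ 2 - C d) - f * ((r /ₘ f) * (r + q)) := by
        have : r - q = f * (r /ₘ f) := by linear_combination h1
        linear_combination -(r + q) * this
      rw [h2]
      exact dvd_sub hr (dvd_mul_right _ _)
    have hqdeg : q.natDegree < f.natDegree := natDegree_modByMonic_lt r hf hf1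
    by_cases hq0 : q.natDegree = 0
    · exfalso
      obtain ⟨c, hc⟩ := natDegree_eq_zero.1 hq0
      rw [← hc, ← C_pow, ← C_sub] at hq1
      have hne : c ^ 2 - d ≠ 0 := by
        intro h0
        exact hd ⟨c, by linear_combination -h0⟩
      have := natDegree_le_of_dvd hq1 (C_ne_zero.2 hne)
      rw [natDegree_C] at this
      omega
    · obtain ⟨h, hh⟩ := hq1
      have hqne : q ≠ 0 := by
        intro h0; rw [h0] at hq0; simp at hq0
      have hdeg2 : (q ^ 2 - C d).natDegree = 2 * q.natDegree := by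
        rw [natDegree_sub_C, natDegree_pow]
      have hlc : (q ^ 2 - C d).leadingCoeff = q.leadingCoeff ^ 2 := by
        rw [leadingCoeff_sub_of_degree_lt, leadingCoeff_pow]
        apply lt_of_le_of_lt degree_C_le
        rw [← natDegree_pos_iff_degree_pos, natDegree_pow]
        omega
      have hne : q ^ 2 - C d ≠ 0 := by
        intro h0; rw [h0] at hdeg2; simp at hdeg2; omega
      have hhne : h ≠ 0 := by
        intro h0; rw [h0, mul_zero] at hh; exact hne hh
      have hlch : h.leadingCoeff = q.leadingCoeff ^ 2 := by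
        rw [← hlc, hh, leadingCoeff_mul, hf.leadingCoeff, one_mul]
      have hdh : h.natDegree < n := by
        have := natDegree_mul hf.ne_zero hhne
        rw [← hh, hdeg2] at this
        omega
      have hlq : q.leadingCoeff ≠ 0 := leadingCoeff_ne_zero.2 hqne
      set h' := h * C (h.leadingCoeff)⁻¹ with hh'
      have hm : h'.Monic := monic_mul_leadingCoeff_inv hhne
      have hh2 : h = h' * C q.leadingCoeff ^ 2 := by
        rw [hh', hlch, mul_assoc, ← C_pow, ← C_mul, inv_mul_cancel₀ (pow_ne_zero 2 hlq)]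
        simp
      have hd' : h'.natDegree = h.natDegree := by
        rw [hh', natDegree_mul_C (inv_ne_zero (leadingCoeff_ne_zero.2 hhne))]
      have hdvd : h' ∣ q ^ 2 - C d := by
        rw [hh, hh2]
        exact Dvd.dvd.mul_left (dvd_mul_right _ _) _
      have n1 := ih _ (hd' ▸ hdh) h' q rfl hm hdvd
      have n2 : Nrm (RatFunc.C d : RatFunc F) (algebraMap F[X] (RatFunc F) h) := by
        rw [hh2, map_mul, map_pow]
        exact n1.mul (nrm_sq _ _)
      have n3 : Nrm (RatFunc.C d : RatFunc F)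
          (algebraMap F[X] (RatFunc F) f * algebraMap F[X] (RatFunc F) h) := by
        rw [← map_mul, ← hh]
        exact ⟨algebraMap F[X] (RatFunc F) q, 1, by simp⟩
      exact Nrm.of_mul (by simpa using hhne) n3 n2

/-- every nonzero polynomial is a square times a constant, or has a prime of odd order -/
lemma sq_decomp : ∀ n : ℕ, ∀ P : F[X], P.natDegree = n → P ≠ 0 →
    (∃ l : F, ∃ w : F[X], l ≠ 0 ∧ w ≠ 0 ∧ P = C l * w ^ 2) ∨
    (∃ p B w : F[X], Irreducible p ∧ ¬ p ∣ B ∧ w ≠ 0 ∧ P = p * B * w ^ 2) := by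
  intro n
  induction n using Nat.strong_induction_on with
  | _ n ih =>
    intro P hn hP
    by_cases hu : IsUnit P
    · left
      obtain ⟨l, hl, rfl⟩ := Polynomial.isUnit_iff.1 hu
      exact ⟨l, 1, hl.ne_zero, one_ne_zero, by simp⟩
    obtain ⟨p, hp, B, rfl⟩ := WfDvdMonoid.exists_irreducible_factor hu hP
    by_cases hB : p ∣ B
    · obtain ⟨Q, rfl⟩ := hB
      have hQ : Q ≠ 0 := right_ne_zero_of_mul (right_ne_zero_of_mul hP)
      have hdeg : Q.natDegree < n := by
        rw [← hn, natDegree_mul hp.ne_zero (mul_ne_zero hp.ne_zero hQ),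
          natDegree_mul hp.ne_zero hQ]
        have := hp.natDegree_pos
        omega
      rcases ih _ hdeg Q rfl hQ with ⟨l, w, hl, hw, h⟩ | ⟨p', B', w, hp', hB', hw, h⟩
      · exact Or.inl ⟨l, w * p, hl, mul_ne_zero hw hp.ne_zero, by rw [h]; ring⟩
      · exact Or.inr ⟨p', B', w * p, hp', hB', mul_ne_zero hw hp.ne_zero, by rw [h]; ring⟩
    · exact Or.inr ⟨p, B, 1, hp, hB, one_ne_zero, by simp⟩

end ratfunc

end Pool.Agent.MP_e24c0b_lc
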