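import Mathlib
import Pool.Agent.MP_e24c0b_lc.Norms

open Polynomial

namespace Pool.Agent.MP_e24c0b_lc

universe u

section trace
variable {F L : Type*} [Field F] [Field L] [Algebra F L] [FiniteDimensional F L]

lemma trace_eq_zero_of_sq {w : L} {m : F} (hw : w ^ 2 = algebraMap F L m)
    (hm : ¬ IsSquare m) : Algebra.trace F L w = 0 := by
  have hirr : Irreducible (X ^ 2 - C m : F[X]) := by
    apply X_pow_sub_C_irreducible_of_prime Nat.prime_two
    intro b hb
    exact hm ⟨b, by rw [← hb]; ring⟩
  have hmin : minpoly F w = X ^ 2 - C m := by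
    symm
    apply minpoly.eq_of_irreducible_of_monic hirr
    · simp [hw]
    · exact monic_X_pow_sub_C m (by norm_num)
  rw [trace_eq_finrank_mul_minpoly_nextCoeff, hmin]
  have : (X ^ 2 - C m : F[X]).nextCoeff = 0 := by
    rw [nextCoeff_of_natDegree_pos (by rw [natDegree_X_pow_sub_C]; norm_num),
      natDegree_X_pow_sub_C]
    simp [coeff_X_pow]
  rw [this]; simp

lemma finite_squares [CharZero F] {ι : Type*} (a : ι → F) (h0 : ∀ i, a i ≠ 0)
    (h2 : ∀ i j, i ≠ j → ¬ IsSquare (a i * a j)) :
    {i | IsSquare (algebraMap F L (a i))}.Finite := by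
  classical
  set S := {i | IsSquare (algebraMap F L (a i))} with hS
  have hw : ∀ i : S, ∃ w : L, w ^ 2 = algebraMap F L (a i) := by
    rintro ⟨i, w, hw⟩
    exact ⟨w, by rw [hw]; ring⟩
  choose w hw using hw
  have hli : LinearIndependent F w := by
    rw [linearIndependent_iff']
    intro s g hg i hi
    have h1 := congrArg (fun z => Algebra.trace F L (w i * z)) hg
    simp only [Finset.mul_sum, mul_zero, map_zero, map_sum, mul_smul_comm, map_smul] at h1
    rw [Finset.sum_eq_single i] at h1
    · rw [← sq, hw, Algebra.trace_algebraMap] at h1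
      simp only [smul_eq_mul, mul_eq_zero, nsmul_eq_mul, Nat.cast_eq_zero] at h1
      rcases h1 with h1 | h1 | h1
      · exact h1
      · exact absurd h1 Module.finrank_pos.ne'
      · exact absurd h1 (h0 _)
    · intro j _ hji
      rw [trace_eq_zero_of_sq (m := a i * a j), smul_zero]
      · rw [mul_pow, hw, hw, map_mul]
      · exact h2 _ _ (fun h => hji (Subtype.ext h.symm))
    · intro h; exact absurd hi h
  have : Finite S := hli.finite_of_isNoetherian
  exact Set.toFinite S

end trace

section tower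
variable {F : Type u} [Field F] [CharZero F]

lemma exists_tower {ι : Type*} [DecidableEq ι] (a : ι → F) (I : Finset ι) :
    ∃ (κ : Type u) (_ : Field κ) (_ : Algebra F κ), FiniteDimensional F κ ∧
      (∀ i ∈ I, IsSquare (algebraMap F κ (a i))) ∧
      ∀ b : F, IsSquare (algebraMap F κ b) → ∃ J ⊆ I, IsSquare (b * ∏ i ∈ J, a i) := by
  induction I using Finset.induction_on with
  | empty =>
    refine ⟨F, inferInstance, inferInstance, inferInstance, by simp, ?_⟩
    intro b hb
    exact ⟨∅, by simp, by simpa using hb⟩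
  | insert i I hi ih =>
    obtain ⟨κ, _, _, hfin, h1, h2⟩ := ih
    by_cases hsq : IsSquare (algebraMap F κ (a i))
    · refine ⟨κ, inferInstance, inferInstance, hfin, ?_, ?_⟩
      · intro j hj
        rcases Finset.mem_insert.1 hj with rfl | hj
        · exact hsq
        · exact h1 j hj
      · intro b hb
        obtain ⟨J, hJ, h⟩ := h2 b hb
        exact ⟨J, hJ.trans (Finset.subset_insert _ _), h⟩
    · have : CharZero κ := charZero_of_injective_algebraMap (algebraMap F κ).injective
      have hf : Fact (∀ r : κ, r ^ 2 ≠ algebraMap F κ (a i) + 0 * r) := by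
        refine ⟨fun r hr => hsq ⟨r, ?_⟩⟩
        linear_combination -hr
      let κ' := QuadraticAlgebra κ (algebraMap F κ (a i)) 0
      have hmap : ∀ b : F, algebraMap F κ' b = ⟨algebraMap F κ b, 0⟩ := fun b => rfl
      have hre' : ∀ z : κ', (z * z).re = z.re * z.re + algebraMap F κ (a i) * z.im * z.im :=
        fun z => QuadraticAlgebra.re_mul z z
      have him' : ∀ z : κ', (z * z).im = z.re * z.im + z.im * z.re + 0 * z.im * z.im :=
        fun z => QuadraticAlgebra.im_mul z z
      have : IsScalarTower F κ κ' := inferInstance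
      refine ⟨κ', inferInstance, inferInstance, Module.Finite.trans κ κ', ?_, ?_⟩
      · intro j hj
        rcases Finset.mem_insert.1 hj with rfl | hj
        · refine ⟨⟨0, 1⟩, ?_⟩
          rw [hmap]
          ext
          · rw [hre']; simp
          · rw [him']; simp
        · obtain ⟨r, hr⟩ := h1 j hj
          refine ⟨⟨r, 0⟩, ?_⟩
          rw [hmap, hr]
          ext
          · rw [hre']; simp
          · rw [him']; simp
      · rintro b ⟨z, hz⟩
        rw [hmap] at hz
        have hre := congrArg QuadraticAlgebra.re hz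
        have him := congrArg QuadraticAlgebra.im hz
        rw [hre'] at hre
        rw [him'] at him
        simp only at hre him
        have h3 : z.re * z.im = 0 := by
          have : (2 : κ) * (z.re * z.im) = 0 := by linear_combination -him
          exact (mul_eq_zero.1 this).resolve_left two_ne_zero
        rcases mul_eq_zero.1 h3 with h4 | h4
        · have : IsSquare (algebraMap F κ (b * a i)) := by
            refine ⟨algebraMap F κ (a i) * z.im, ?_⟩
            rw [map_mul, hre, h4]; ring
          obtain ⟨J, hJ, h⟩ := h2 _ this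
          refine ⟨insert i J, Finset.insert_subset_insert _ hJ, ?_⟩
          rw [Finset.prod_insert (fun h => hi (hJ h)), ← mul_assoc]
          exact h
        · have : IsSquare (algebraMap F κ b) := ⟨z.re, by rw [hre, h4]; ring⟩
          obtain ⟨J, hJ, h⟩ := h2 _ this
          exact ⟨J, hJ.trans (Finset.subset_insert _ _), h⟩

/-- every finite set is a set of norm parameters -/
lemma exists_code {ι : Type*} [DecidableEq ι] (a : ι → F)
    (hG : ∀ J : Finset ι, J.Nonempty → ¬ IsSquare (∏ i ∈ J, a i)) (I : Finset ι) :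
    ∃ y : RatFunc F, y ≠ 0 ∧ ∀ i, Nrm (RatFunc.C (a i)) y ↔ i ∈ I := by
  obtain ⟨κ, _, _, hfin, h1, h2⟩ := exists_tower a I
  obtain ⟨θ, hθ⟩ := Field.exists_primitive_element F κ
  have hint : IsIntegral F θ := Algebra.IsIntegral.isIntegral θ
  have hirr : Irreducible (minpoly F θ) := minpoly.irreducible hint
  have hmon : (minpoly F θ).Monic := minpoly.monic hint
  refine ⟨algebraMap F[X] (RatFunc F) (minpoly F θ), by simpa using hmon.ne_zero, fun i => ?_⟩
  constructor
  · intro h
    by_contra hi
    rw [← RatFunc.algebraMap_C, ← mul_one (minpoly F θ)] at h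
    obtain ⟨r, hr⟩ := residue hirr (fun h => hirr.not_isUnit (isUnit_of_dvd_one h)) h
    have h3 : aeval θ (r ^ 2 - C (a i)) = 0 := by
      obtain ⟨s, hs⟩ := hr
      rw [hs, map_mul, minpoly.aeval, zero_mul]
    have h4 : IsSquare (algebraMap F κ (a i)) := by
      refine ⟨aeval θ r, ?_⟩
      simp only [map_sub, map_pow, aeval_C] at h3
      linear_combination -h3
    obtain ⟨J, hJ, h5⟩ := h2 _ h4
    rw [← Finset.prod_insert (fun h => hi (hJ h))] at h5
    exact hG _ (Finset.insert_nonempty _ _) h5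
  · intro hi
    obtain ⟨z, hz⟩ := h1 i hi
    have hz2 : z ∈ Algebra.adjoin F {θ} := by
      rw [← IntermediateField.adjoin_simple_toSubalgebra_of_isAlgebraic hint.isAlgebraic, hθ]
      trivial
    rw [Algebra.adjoin_singleton_eq_range_aeval] at hz2
    obtain ⟨r, hr⟩ := hz2
    have hr' : aeval θ r = z := hr
    have hns : ¬ IsSquare (a i) := by
      simpa using hG {i} (Finset.singleton_nonempty i)
    refine nrm_of_monic_dvd hns _ _ r rfl hmon (minpoly.dvd F θ ?_)
    simp only [map_sub, map_pow, aeval_C, hr', hz]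
    ring

/-- the finiteness step -/
lemma finite_step {ι : Type*} (a : ι → F) (h0 : ∀ i, a i ≠ 0)
    (h2 : ∀ i j, i ≠ j → ¬ IsSquare (a i * a j))
    (h3 : ∀ y : F, y ≠ 0 → (∀ i, Nrm (a i) y) ∨ {i | Nrm (a i) y}.Finite)
    (y : RatFunc F) (hy : y ≠ 0) :
    (∀ i, Nrm (RatFunc.C (a i)) y) ∨ {i | Nrm (RatFunc.C (a i)) y}.Finite := by
  obtain ⟨P, Q, hQ, rfl⟩ := IsFractionRing.div_surjective (A := F[X]) y
  have hQ' : Q ≠ 0 := nonZeroDivisors.ne_zero hQ
  have hP : P ≠ 0 := by
    rintro rfl
    simp at hy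
  have eQ : algebraMap F[X] (RatFunc F) Q ≠ 0 := by simpa using hQ'
  have key : ∀ b : RatFunc F, Nrm b (algebraMap F[X] (RatFunc F) P / algebraMap F[X] (RatFunc F) Q)
      ↔ Nrm b (algebraMap F[X] (RatFunc F) (P * Q)) := by
    intro b
    rw [← nrm_mul_sq_iff eQ, map_mul]
    congr! 1
    field_simp
  simp only [key]
  rcases sq_decomp _ (P * Q) rfl (mul_ne_zero hP hQ') with
    ⟨l, w, hl, hw, h⟩ | ⟨p, B, w, hp, hB, hw, h⟩
  · have ew : algebraMap F[X] (RatFunc F) w ≠ 0 := by simpa using hw
    have key2 : ∀ b : F, Nrm (RatFunc.C b) (algebraMap F[X] (RatFunc F) (P * Q)) ↔ Nrm b l := by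
      intro b
      rw [h, map_mul, map_pow, nrm_mul_sq_iff ew, RatFunc.algebraMap_C]
      exact ⟨nrm_descend, fun h => h.map RatFunc.C⟩
    simp only [key2]
    exact h3 l hl
  · right
    have ew : algebraMap F[X] (RatFunc F) w ≠ 0 := by simpa using hw
    have : Fact (Irreducible p) := ⟨hp⟩
    have : FiniteDimensional F (AdjoinRoot p) := (AdjoinRoot.powerBasis hp.ne_zero).finite
    refine (finite_squares (L := AdjoinRoot p) a h0 h2).subset ?_
    intro i hi
    simp only [Set.mem_ofPred_eq] at hi ⊢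
    rw [h, map_mul, map_pow, nrm_mul_sq_iff ew, ← RatFunc.algebraMap_C] at hi
    obtain ⟨r, hr⟩ := residue hp hB hi
    have h4 := AdjoinRoot.mk_eq_zero.2 hr
    refine ⟨AdjoinRoot.mk p r, ?_⟩
    simp only [map_sub, map_pow, AdjoinRoot.mk_C] at h4
    rw [AdjoinRoot.algebraMap_eq]
    linear_combination -h4

/-- solutions of the cubic Fermat equation in `F(s)` are in `F` -/
lemma cubic_step {x y : RatFunc F} (hx : x ≠ 0) (hy : y ≠ 0) (h : x ^ 3 + y ^ 3 = 1) :
    ∃ a b : F, x = RatFunc.C a ∧ y = RatFunc.C b := by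
  obtain ⟨u1, w1, hw1, rfl⟩ := IsFractionRing.div_surjective (A := F[X]) x
  obtain ⟨v1, w2, hw2, rfl⟩ := IsFractionRing.div_surjective (A := F[X]) y
  have hw1' : w1 ≠ 0 := nonZeroDivisors.ne_zero hw1
  have hw2' : w2 ≠ 0 := nonZeroDivisors.ne_zero hw2
  have e1 : algebraMap F[X] (RatFunc F) w1 ≠ 0 := by simpa using hw1'
  have e2 : algebraMap F[X] (RatFunc F) w2 ≠ 0 := by simpa using hw2'
  have hu1 : u1 ≠ 0 := by
    rintro rfl
    simp at hx
  have hv1 : v1 ≠ 0 := by
    rintro rfl
    simp at hy
  have heq : (u1 * w2) ^ 3 + (v1 * w1) ^ 3 = (w1 * w2) ^ 3 := by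
    apply IsFractionRing.injective F[X] (RatFunc F)
    simp only [map_mul, map_pow, map_add]
    field_simp at h
    linear_combination h
  obtain ⟨d, a', b', c', ⟨ha, hb, hc⟩, ua, ub, uc⟩ :=
    fermatLastTheoremWith'_polynomial (k := F) (n := 3) le_rfl (by norm_num) _ _ _
      (mul_ne_zero hu1 hw2') (mul_ne_zero hv1 hw1') (mul_ne_zero hw1' hw2') heq
  obtain ⟨a, -, rfl⟩ := Polynomial.isUnit_iff.1 ua
  obtain ⟨b, -, rfl⟩ := Polynomial.isUnit_iff.1 ub
  obtain ⟨c, hc0, rfl⟩ := Polynomial.isUnit_iff.1 uc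
  have ec : (RatFunc.C c : RatFunc F) ≠ 0 := by simpa using hc0.ne_zero
  have ha' := congrArg (algebraMap F[X] (RatFunc F)) ha
  have hb' := congrArg (algebraMap F[X] (RatFunc F)) hb
  have hc' := congrArg (algebraMap F[X] (RatFunc F)) hc
  simp only [map_mul, RatFunc.algebraMap_C] at ha' hb' hc'
  refine ⟨a / c, b / c, ?_, ?_⟩
  · rw [map_div₀, div_eq_div_iff e1 ec]
    apply mul_right_cancel₀ e2
    linear_combination (RatFunc.C c) * ha' - RatFunc.C a * hc'
  · rw [map_div₀, div_eq_div_iff e2 ec]
    apply mul_right_cancel₀ e1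
    linear_combination (RatFunc.C c) * hb' - RatFunc.C b * hc'

end tower

end Pool.Agent.MP_e24c0b_lc
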