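import Mathlib
import Pool.Agent.MP_e24c0b_lc.Kummer

open Polynomial

namespace Pool.Agent.MP_e24c0b_lc

/-- constants are cut out by the cubic Fermat curve -/
def G1 {F : Type} [Field F] (ι : ℂ →+* F) : Prop :=
  ∀ x y : F, x ^ 3 + y ^ 3 = 1 → x ∈ Set.range ι

def G2 {F : Type} [Field F] (ι : ℂ →+* F) (t : F) : Prop :=
  ∀ J : Finset ℂ, J.Nonempty → ¬ IsSquare (∏ c ∈ J, (t - ι c))

def G3 {F : Type} [Field F] (ι : ℂ →+* F) (t : F) : Prop :=
  ∀ y : F, y ≠ 0 → (∀ c, Nrm (t - ι c) y) ∨ {c | Nrm (t - ι c) y}.Finite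

def G4 {F : Type} [Field F] (ι : ℂ →+* F) (t : F) : Prop :=
  ∀ I : Finset ℂ, ∃ y : F, y ≠ 0 ∧ ∀ c, Nrm (t - ι c) y ↔ c ∈ I

def Good (F : Type) [Field F] : Prop := ∃ (ι : ℂ →+* F) (t : F), G1 ι ∧ G2 ι t ∧ G3 ι t

def Great (F : Type) [Field F] : Prop :=
  ∃ (ι : ℂ →+* F) (t : F), G1 ι ∧ G2 ι t ∧ G3 ι t ∧ G4 ι t

variable {F : Type} [Field F]

lemma Great.good (h : Great F) : Good F := by
  obtain ⟨ι, t, h1, h2, h3, -⟩ := h
  exact ⟨ι, t, h1, h2, h3⟩

lemma cube_root_one (ι : ℂ →+* F) {x : F} (h : x ^ 3 = 1) : x ∈ Set.range ι := by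
  obtain ⟨s, hs⟩ := IsAlgClosed.exists_eq_mul_self (-3 / 4 : ℂ)
  have h2 : (-1 / 2 + s) + (-1 / 2 - s) = -1 := by ring
  have h3 : (-1 / 2 + s) * (-1 / 2 - s) = 1 := by linear_combination hs
  have h2' := congrArg ι h2
  have h3' := congrArg ι h3
  rw [map_add, map_neg, map_one] at h2'
  rw [map_mul, map_one] at h3'
  have h4 : (x - 1) * (x - ι (-1 / 2 + s)) * (x - ι (-1 / 2 - s)) = 0 := by
    linear_combination h - (x - 1) * x * h2' + (x - 1) * h3'
  rcases mul_eq_zero.1 h4 with h5 | h5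
  · rcases mul_eq_zero.1 h5 with h6 | h6
    · exact ⟨1, by rw [map_one]; linear_combination -h6⟩
    · exact ⟨_, (sub_eq_zero.1 h6).symm⟩
  · exact ⟨_, (sub_eq_zero.1 h5).symm⟩

lemma G1.step {ι : ℂ →+* F} (h : G1 ι) :
    G1 ((RatFunc.C : F →+* RatFunc F).comp ι) := by
  have : CharZero F := charZero_of_injective_ringHom ι.injective
  intro x y hxy
  by_cases hx : x = 0
  · exact ⟨0, by simp [hx]⟩
  by_cases hy : y = 0
  · apply cube_root_one
    simpa [hy] using hxy
  obtain ⟨a, b, rfl, rfl⟩ := cubic_step hx hy hxy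
  have h2 : a ^ 3 + b ^ 3 = 1 := by
    apply (RatFunc.C : F →+* RatFunc F).injective
    simpa using hxy
  obtain ⟨c, rfl⟩ := h a b h2
  exact ⟨c, rfl⟩

lemma G2.step {ι : ℂ →+* F} {t : F} (h : G2 ι t) :
    G2 ((RatFunc.C : F →+* RatFunc F).comp ι) (RatFunc.C t) := by
  have : CharZero F := charZero_of_injective_ringHom ι.injective
  intro J hJ hsq
  apply h J hJ
  rw [← nrm_zero_iff] at hsq ⊢
  apply nrm_descend
  simpa [map_prod] using hsq

lemma Good.step (h : Good F) : Great (RatFunc F) := by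
  classical
  obtain ⟨ι, t, h1, h2, h3⟩ := h
  have : CharZero F := charZero_of_injective_ringHom ι.injective
  refine ⟨(RatFunc.C : F →+* RatFunc F).comp ι, RatFunc.C t, h1.step, h2.step, ?_, ?_⟩
  · intro y hy
    have := finite_step (fun c : ℂ => t - ι c) (fun c h0 => h2 {c} (Finset.singleton_nonempty c)
      (by simp [h0])) (fun c d hcd => by
        have := h2 {c, d} (Finset.insert_nonempty _ _)
        rwa [Finset.prod_pair hcd] at this) h3 y hy
    simpa using this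
  · intro I
    have := exists_code (fun c : ℂ => t - ι c) h2 I
    simpa using this

lemma good_base : Good (RatFunc ℂ) := by
  classical
  have h1 : G1 (RingHom.id ℂ) := fun x _ _ => ⟨x, rfl⟩
  refine ⟨(RatFunc.C : ℂ →+* RatFunc ℂ).comp (RingHom.id ℂ), RatFunc.X, h1.step, ?_, ?_⟩
  · intro J hJ hsq
    have e : ∏ c ∈ J, ((RatFunc.X : RatFunc ℂ) - ((RatFunc.C : ℂ →+* RatFunc ℂ).comp
        (RingHom.id ℂ)) c) = algebraMap ℂ[X] (RatFunc ℂ) (∏ c ∈ J, (X - C c)) := by
      simp [map_prod]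
    rw [e, ← nrm_zero_iff, ← map_zero (algebraMap ℂ[X] (RatFunc ℂ))] at hsq
    obtain ⟨u, v, w, hw, h⟩ := clear_den hsq
    have hd : w ∣ u := by
      rw [← IsIntegrallyClosed.pow_dvd_pow_iff (n := 2) two_ne_zero]
      exact ⟨∏ c ∈ J, (X - C c), by linear_combination -h⟩
    obtain ⟨s, rfl⟩ := hd
    have h2 : ∏ c ∈ J, (X - C c) = s * s := by
      apply mul_left_cancel₀ (pow_ne_zero 2 hw)
      linear_combination h
    have hsf : Squarefree (∏ c ∈ J, (X - C c) : ℂ[X]) :=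
      (separable_prod_X_sub_C_iff'.2 (fun _ _ _ _ h => h)).squarefree
    have hu : IsUnit s := hsf s (by rw [h2])
    have hu2 : IsUnit (∏ c ∈ J, (X - C c) : ℂ[X]) := by
      rw [h2]; exact hu.mul hu
    obtain ⟨c, hc⟩ := hJ
    exact (irreducible_X_sub_C c).not_isUnit
      (isUnit_of_dvd_unit (Finset.dvd_prod_of_mem (fun c : ℂ => (X - C c : ℂ[X])) hc) hu2)
  · intro y hy
    left
    intro c
    have key : ∀ P : ℂ[X], Nrm ((RatFunc.X : RatFunc ℂ) - RatFunc.C c)
        (algebraMap ℂ[X] (RatFunc ℂ) P) := by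
      intro P
      induction P using WfDvdMonoid.induction_on_irreducible with
      | zero => exact ⟨0, 0, by simp⟩
      | unit u hu =>
        obtain ⟨l, -, rfl⟩ := Polynomial.isUnit_iff.1 hu
        obtain ⟨s, hs⟩ := IsAlgClosed.exists_eq_mul_self l
        exact ⟨RatFunc.C s, 0, by rw [hs]; simp [sq]⟩
      | mul a p _ hp ih =>
        rw [map_mul]
        refine Nrm.mul ?_ ih
        have hdeg := IsAlgClosed.degree_eq_one_of_irreducible ℂ hp
        have hp2 := eq_X_add_C_of_degree_eq_one hdeg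
        obtain ⟨β, hβ⟩ := IsAlgClosed.exists_eq_mul_self (-p.leadingCoeff)
        obtain ⟨α, hα⟩ := IsAlgClosed.exists_eq_mul_self (p.coeff 0 + c * p.leadingCoeff)
        refine ⟨RatFunc.C α, RatFunc.C β, ?_⟩
        have hβ' := congrArg (RatFunc.C : ℂ →+* RatFunc ℂ) hβ
        have hα' := congrArg (RatFunc.C : ℂ →+* RatFunc ℂ) hα
        simp only [map_neg, map_mul, map_add] at hβ' hα'
        have hp3 := congrArg (algebraMap ℂ[X] (RatFunc ℂ)) hp2
        simp only [map_add, map_mul, RatFunc.algebraMap_C, RatFunc.algebraMap_X] at hp3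
        rw [hp3]
        linear_combination hα' - (RatFunc.X - RatFunc.C c) * hβ'
    obtain ⟨P, Q, hQ, rfl⟩ := IsFractionRing.div_surjective (A := ℂ[X]) y
    have hQ' : Q ≠ 0 := nonZeroDivisors.ne_zero hQ
    have eQ : algebraMap ℂ[X] (RatFunc ℂ) Q ≠ 0 := by simpa using hQ'
    apply Nrm.of_mul eQ _ (key Q)
    rw [div_mul_cancel₀ _ eQ]
    exact key P

section transfer
variable {E : Type} [Field E]

lemma G1.transfer (e : F ≃+* E) {ι : ℂ →+* F} (h : G1 ι) : G1 ((e : F →+* E).comp ι) := by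
  intro x y hxy
  obtain ⟨x, rfl⟩ := e.surjective x
  obtain ⟨y, rfl⟩ := e.surjective y
  obtain ⟨c, rfl⟩ := h x y (e.injective (by simpa using hxy))
  exact ⟨c, rfl⟩

lemma G2.transfer (e : F ≃+* E) {ι : ℂ →+* F} {t : F} (h : G2 ι t) :
    G2 ((e : F →+* E).comp ι) (e t) := by
  intro J hJ hsq
  apply h J hJ
  rw [← nrm_zero_iff] at hsq ⊢
  rw [← nrm_map_equiv e]
  simpa [map_prod] using hsq

lemma nrm_transfer (e : F ≃+* E) (ι : ℂ →+* F) (t y : F) (c : ℂ) :
    Nrm (e t - ((e : F →+* E).comp ι) c) (e y) ↔ Nrm (t - ι c) y := by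
  rw [← nrm_map_equiv e (a := t - ι c)]
  simp

lemma G3.transfer (e : F ≃+* E) {ι : ℂ →+* F} {t : F} (h : G3 ι t) :
    G3 ((e : F →+* E).comp ι) (e t) := by
  intro y hy
  obtain ⟨y, rfl⟩ := e.surjective y
  simp only [nrm_transfer]
  exact h y (by simpa using hy)

lemma G4.transfer (e : F ≃+* E) {ι : ℂ →+* F} {t : F} (h : G4 ι t) :
    G4 ((e : F →+* E).comp ι) (e t) := by
  intro I
  obtain ⟨y, hy, h⟩ := h I
  refine ⟨e y, by simpa using hy, fun c => ?_⟩
  rw [nrm_transfer, h]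

lemma Good.transfer (e : F ≃+* E) (h : Good F) : Good E := by
  obtain ⟨ι, t, h1, h2, h3⟩ := h
  exact ⟨_, _, h1.transfer e, h2.transfer e, h3.transfer e⟩

lemma Great.transfer (e : F ≃+* E) (h : Great F) : Great E := by
  obtain ⟨ι, t, h1, h2, h3, h4⟩ := h
  exact ⟨_, _, h1.transfer e, h2.transfer e, h3.transfer e, h4.transfer e⟩

end transfer

lemma bridge {A R K : Type} [CommRing A] [IsDomain A] [CommRing R] [IsDomain R] [Field K]
    [Algebra R K] [IsFractionRing R K] (e : A ≃+* R[X]) :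
    Nonempty (RatFunc K ≃+* FractionRing A) := by
  let φ : A →+* RatFunc K :=
    (algebraMap K[X] (RatFunc K)).comp ((mapRingHom (algebraMap R K)).comp (e : A →+* R[X]))
  have hφ : Function.Injective φ :=
    (IsFractionRing.injective K[X] (RatFunc K)).comp
      ((Polynomial.map_injective _ (IsFractionRing.injective R K)).comp e.injective)
  let : Algebra A (RatFunc K) := φ.toAlgebra
  have : FaithfulSMul A (RatFunc K) := (faithfulSMul_iff_algebraMap_injective _ _).2 hφ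
  have hpoly : ∀ P : K[X], ∃ a b : A, b ≠ 0 ∧ algebraMap K[X] (RatFunc K) P * φ b = φ a := by
    intro P
    obtain ⟨b, hb, h⟩ := IsLocalization.integerNormalization_spec (nonZeroDivisors R) P
    refine ⟨e.symm (IsLocalization.integerNormalization (nonZeroDivisors R) P), e.symm (C b),
      by simpa using nonZeroDivisors.ne_zero hb, ?_⟩
    simp only [φ, RingHom.comp_apply, RingHom.coe_coe, RingEquiv.apply_symm_apply, coe_mapRingHom,
      h, map_C]
    rw [← map_mul, ← IsScalarTower.algebraMap_smul K b P, smul_eq_C_mul, mul_comm]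
  have : IsFractionRing A (RatFunc K) := by
    apply IsFractionRing.of_field
    intro z
    obtain ⟨P, Q, hQ, rfl⟩ := IsFractionRing.div_surjective (A := K[X]) z
    have hQ' : Q ≠ 0 := nonZeroDivisors.ne_zero hQ
    have eQ : algebraMap K[X] (RatFunc K) Q ≠ 0 := by simpa using hQ'
    obtain ⟨a, b, hb, h⟩ := hpoly P
    obtain ⟨a', b', hb', h'⟩ := hpoly Q
    have eb : φ b ≠ 0 := (map_ne_zero_iff _ hφ).2 hb
    have eb' : φ b' ≠ 0 := (map_ne_zero_iff _ hφ).2 hb'
    refine ⟨a * b', a' * b, ?_⟩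
    change _ = φ (a * b') / φ (a' * b)
    rw [map_mul, map_mul, ← h, ← h']
    field_simp
  exact ⟨(FractionRing.algEquiv A (RatFunc K)).symm.toRingEquiv⟩

lemma good_succ (k : ℕ) : Good (FractionRing (MvPolynomial (Fin (k + 1)) ℂ)) := by
  induction k with
  | zero =>
    obtain ⟨e⟩ := bridge (A := MvPolynomial (Fin 1) ℂ) (R := ℂ) (K := ℂ)
      (MvPolynomial.uniqueAlgEquiv ℂ (Fin 1)).toRingEquiv
    exact good_base.transfer e
  | succ k ih =>
    obtain ⟨e⟩ := bridge (K := FractionRing (MvPolynomial (Fin (k + 1)) ℂ))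
      (MvPolynomial.finSuccEquiv ℂ (k + 1)).toRingEquiv
    exact (ih.step.transfer e).good

lemma great_of_two_le {k : ℕ} (hk : 2 ≤ k) : Great (FractionRing (MvPolynomial (Fin k) ℂ)) := by
  obtain ⟨k, rfl⟩ : ∃ j, k = j + 1 + 1 := ⟨k - 2, by omega⟩
  obtain ⟨e⟩ := bridge (K := FractionRing (MvPolynomial (Fin (k + 1)) ℂ))
    (MvPolynomial.finSuccEquiv ℂ (k + 1)).toRingEquiv
  exact (good_succ k).step.transfer e

end Pool.Agent.MP_e24c0b_lc
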