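import Mathlib
import Pool.Agent.MP_e24c0b_lc.Defs
import Pool.Agent.MP_e24c0b_lc.Good

namespace Pool.Agent.MP_e24c0b_lc

variable {K : Type} [Field K]

def DP {α : Type} (P : (α → K) → Prop) : Prop :=
  (Set.univ : Set K).Definable ringLang {v | P v}

def DF {α : Type} (f : (α → K) → K) : Prop := (Set.univ : Set K).DefinableFun ringLang f

section calculus
variable {α : Type} {f g : (α → K) → K} {P Q : (α → K) → Prop}

lemma DF.const (a : K) : DF (fun _ : α → K => a) :=
  FirstOrder.Language.definableFun_const ringLang α (Set.mem_univ a)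

lemma DF.var (i : α) : DF (fun v : α → K => v i) := Set.DefinableFun.proj ringLang

lemma DF.pair (hf : DF f) (hg : DF g) :
    (Set.univ : Set K).DefinableMap ringLang (fun v => ![f v, g v]) := by
  intro i
  fin_cases i
  · exact hf
  · exact hg

lemma DF.add (hf : DF f) (hg : DF g) : DF (fun v => f v + g v) :=
  Set.DefinableFun.comp (hf.pair hg)
    (Set.DefinableFun.of_empty (Set.DefinableFun.fun_symbol (L := ringLang) RingSym.add))

lemma DF.mul (hf : DF f) (hg : DF g) : DF (fun v => f v * g v) :=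
  Set.DefinableFun.comp (hf.pair hg)
    (Set.DefinableFun.of_empty (Set.DefinableFun.fun_symbol (L := ringLang) RingSym.mul))

lemma DF.sub (hf : DF f) (hg : DF g) : DF (fun v => f v - g v) := by
  have := hf.add ((DF.const (-1)).mul hg)
  simpa [sub_eq_add_neg] using this

lemma DF.pow (hf : DF f) (n : ℕ) : DF (fun v => f v ^ n) := by
  induction n with
  | zero => simpa using DF.const 1
  | succ n ih => simpa [pow_succ] using ih.mul hf

lemma DF.lift [Finite α] (hf : DF f) : DF (fun w : α ⊕ Unit → K => f (w ∘ Sum.inl)) :=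
  Set.DefinableFun.comp (g := fun w : α ⊕ Unit → K => w ∘ Sum.inl)
    (fun i => DF.var (Sum.inl i)) hf

lemma DF.eq (hf : DF f) (hg : DF g) : DP (fun v => f v = g v) :=
  Set.DefinableFun.ofPred_eq hf hg

lemma DP.and (hP : DP P) (hQ : DP Q) : DP (fun v => P v ∧ Q v) := Set.Definable.inter hP hQ

lemma DP.or (hP : DP P) (hQ : DP Q) : DP (fun v => P v ∨ Q v) := Set.Definable.union hP hQ

lemma DP.not (hP : DP P) : DP (fun v => ¬ P v) := Set.Definable.compl hP

lemma DP.imp (hP : DP P) (hQ : DP Q) : DP (fun v => P v → Q v) := by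
  have := hP.not.or hQ
  simpa only [← imp_iff_not_or] using this

lemma DP.ex {R : K → (α → K) → Prop}
    (h : DP (fun w : α ⊕ Unit → K => R (w (Sum.inr ())) (w ∘ Sum.inl))) :
    DP (fun v => ∃ x, R x v) := by
  have := Set.Definable.exists_of_finite h
  unfold DP
  convert this using 3 with v
  constructor
  · rintro ⟨x, hx⟩
    exact ⟨fun _ => x, hx⟩
  · rintro ⟨x, hx⟩
    exact ⟨x (), hx⟩

lemma DP.all {R : K → (α → K) → Prop}
    (h : DP (fun w : α ⊕ Unit → K => R (w (Sum.inr ())) (w ∘ Sum.inl))) :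
    DP (fun v => ∀ x, R x v) := by
  have := Set.Definable.forall_of_finite h
  unfold DP
  convert this using 3 with v
  constructor
  · intro hx u
    exact hx (u ())
  · intro hx x
    exact hx (fun _ => x)

lemma DF.nrm [Finite α] (hf : DF f) (hg : DF g) : DP (fun v => Nrm (f v) (g v)) := by
  unfold Nrm
  apply DP.ex
  apply DP.ex
  exact DF.eq hg.lift.lift
    (((DF.var _).pow 2).sub (hf.lift.lift.mul ((DF.var _).pow 2)))

end calculus

/-- `x` is the first coordinate of a point of the cubic Fermat curve -/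
def Cst (x : K) : Prop := ∃ y : K, x ^ 3 + y ^ 3 = 1

lemma DF.cst {α : Type} [Finite α] {f : (α → K) → K} (hf : DF f) : DP (fun v => Cst (f v)) := by
  unfold Cst
  apply DP.ex
  exact DF.eq ((hf.lift.pow 3).add ((DF.var _).pow 3)) (DF.const 1)

def NatP (t x : K) : Prop :=
  Cst x ∧ ∃ y : K, ¬ y = 0 ∧ ¬ Nrm (t + 1) y ∧ Nrm (t - x) y ∧
    ∀ c : K, Cst c → Nrm (t - c) y → c = 0 ∨ Nrm (t - (c - 1)) y

lemma DF.natP {α : Type} [Finite α] {f : (α → K) → K} (t : K) (hf : DF f) :
    DP (fun v => NatP t (f v)) := by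
  unfold NatP
  refine hf.cst.and (DP.ex ?_)
  refine (DF.eq (DF.var _) (DF.const 0)).not.and ?_
  refine (DF.nrm (DF.const _) (DF.var _)).not.and ?_
  refine (DF.nrm ((DF.const t).sub hf.lift) (DF.var _)).and ?_
  apply DP.all
  refine (DF.var _).cst.imp ?_
  refine (DF.nrm ((DF.const t).sub (DF.var _)) (DF.var _)).imp ?_
  refine (DF.eq (DF.var _) (DF.const 0)).or ?_
  exact DF.nrm ((DF.const t).sub ((DF.var _).sub (DF.const 1))) (DF.var _)

lemma cst_iff {ι : ℂ →+* K} (h1 : G1 ι) (x : K) : Cst x ↔ x ∈ Set.range ι := by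
  constructor
  · rintro ⟨y, hy⟩
    exact h1 x y hy
  · rintro ⟨c, rfl⟩
    obtain ⟨d, hd⟩ := IsAlgClosed.exists_pow_nat_eq (1 - c ^ 3) (n := 3) (by norm_num)
    refine ⟨ι d, ?_⟩
    rw [← map_pow, ← map_pow, ← map_add, hd]
    simp

lemma natP_iff {ι : ℂ →+* K} {t : K} (h1 : G1 ι) (h3 : G3 ι t) (h4 : G4 ι t) (x : K) :
    NatP t x ↔ ∃ n : ℕ, x = n := by
  classical
  have e1 : t + 1 = t - ι (-1) := by simp
  constructor
  · rintro ⟨hx, y, hy, hn, hxy, hall⟩
    obtain ⟨c, rfl⟩ := (cst_iff h1 _).1 hx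
    by_contra hne
    push Not at hne
    rcases h3 y hy with h | h
    · exact hn (e1 ▸ h _)
    have hmem : ∀ m : ℕ, Nrm (t - ι (c - m)) y := by
      intro m
      induction m with
      | zero => simpa using hxy
      | succ m ih =>
        rcases hall _ ((cst_iff h1 _).2 ⟨_, rfl⟩) ih with h0 | h0
        · exfalso
          apply hne m
          rw [map_sub, map_natCast] at h0
          exact sub_eq_zero.1 h0
        · convert h0 using 2
          simp only [map_sub, map_natCast]
          push_cast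
          ring
    refine Set.infinite_of_injective_forall_mem (f := fun m : ℕ => c - (m : ℂ)) ?_ hmem h
    intro a b hab
    simpa using hab
  · rintro ⟨n, rfl⟩
    refine ⟨(cst_iff h1 _).2 ⟨n, by simp⟩, ?_⟩
    obtain ⟨y, hy, h⟩ := h4 ((Finset.range (n + 1)).image (Nat.cast : ℕ → ℂ))
    refine ⟨y, hy, ?_, ?_, ?_⟩
    · rw [e1, h]
      simp only [Finset.mem_image, Finset.mem_range, not_exists, not_and]
      intro m _ hm
      have : ((m + 1 : ℕ) : ℂ) = 0 := by push_cast; rw [hm]; ring
      exact Nat.succ_ne_zero m (Nat.cast_eq_zero.1 this)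
    · rw [← map_natCast ι, h]
      exact Finset.mem_image_of_mem _ (by simp)
    · intro c hc hcy
      obtain ⟨c, rfl⟩ := (cst_iff h1 _).1 hc
      rw [h] at hcy
      obtain ⟨m, hm, rfl⟩ := Finset.mem_image.1 hcy
      cases m with
      | zero => left; simp
      | succ m =>
        right
        have : ι ((m + 1 : ℕ) : ℂ) - 1 = ι (m : ℂ) := by simp
        rw [this, h]
        refine Finset.mem_image_of_mem _ ?_
        simp only [Finset.mem_range] at hm ⊢
        omega

theorem Great.definable (h : Great K) :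
    (Set.univ : Set K).Definable₁ ringLang (Set.range (Int.cast : ℤ → K)) := by
  obtain ⟨ι, t, h1, -, h3, h4⟩ := h
  have := (DF.natP t (DF.var (0 : Fin 1))).or
    (DF.natP t ((DF.const (0 : K)).sub (DF.var (0 : Fin 1))))
  unfold DP at this
  unfold Set.Definable₁
  convert this using 3 with v
  beta_reduce
  rw [natP_iff h1 h3 h4, natP_iff h1 h3 h4]
  constructor
  · rintro ⟨z, hz⟩
    obtain ⟨n, rfl | rfl⟩ := z.eq_nat_or_neg
    · exact Or.inl ⟨n, by simpa using hz.symm⟩
    · exact Or.inr ⟨n, by rw [← hz]; simp⟩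
  · rintro (⟨n, hn⟩ | ⟨n, hn⟩)
    · exact ⟨n, by simpa using hn.symm⟩
    · exact ⟨-n, by push_cast; linear_combination hn⟩

end Pool.Agent.MP_e24c0b_lc
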